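import Pool.Agent.U253.EEA.Fin

/-!
# `L(s, π, ρ)` for every algebraic representation `ρ` of `GL_2(ℂ)`, for forms with few `|a_p|` off a sparse set

`n = 1`, so `G = GL_2`. Let `π` be a unitary cuspidal automorphic representation of `GL_2` over `ℚ` with an
ARBITRARY central character of finite order, `π_∞` the principal series of `|·|^r sgn^e`, `|·|^{-r} sgn^f`, `S` a
finite set of primes which contains the ramified ones, `A_p ∈ GL_2(ℂ)` (`p ∉ S`) in the Satake class, with the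
eigenvalues `α_p, β_p`, and `a_p = α_p + β_p`. The irreducible algebraic representations of `GL_2(ℂ)` are the
`Sym^k ⊗ det^l`.

**Theorem.** Let `2 M + 1 ≤ K`. Assume that the `L_S(s, π, Sym^k ⊗ det^l)`, `k ≤ K`, `l ∈ ℤ`, have a meromorphic
continuation which is a quotient of entire functions of order at most `3/2` and have the expected functional
equations. Let `T` be a set of primes, possibly INFINITE, with `∑_{p ∈ T} log p / √p < ∞`, on which `α_p, β_p` are
bounded (for instance the `π_p`, `p ∈ T`, are tempered, or `T` is finite), such that the absolute values `|a_p|`,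
`p ∉ S ∪ T`, take at most `M` different nonzero values. Then

* `r = 0` (`π_∞` is of Galois type, the Laplace eigenvalue is `1/4`);
* for EVERY `p ∉ S`: `|α_p| = |β_p| = 1`, `α_p^n = β_p^n` for some `1 ≤ n ≤ 2 M + 1`, and `|a_p|` is zero or one of
  the `M` values - also at the primes of `T`;
* for EVERY algebraic representation `ρ : GL_2(ℂ) → GL_m(ℂ)` the Euler product
  `L_S(s, π, ρ) = ∏_{p ∉ S} det(1 - ρ(A_p) p^{-s})⁻¹` has a meromorphic continuation to `ℂ`, a quotient of entire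
  functions of order at most `3/2`.

For `K = 8` the assumptions on the L-functions are theorems (Rankin-Selberg products of the `Sym^k π ⊗ χ`, `k ≤ 4`,
which are automorphic by Gelbart-Jacquet, Kim-Shahidi and Kim), so `M = 3` is unconditional; `K = 9` is the
Langlands-Shahidi method (Kim-Shahidi, Cuspidality of symmetric powers with applications), this gives `M = 4`, which
contains the icosahedral case `|a_p| ∈ {0, 1, 2, (√5 ± 1)/2}`.

The starting result `AllSymmetricPowers` is the case of trivial central character, finite `T` and `ρ = Sym^k`, with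
the values of `a_p` in place of those of `|a_p|`.

Idea. Put `α_p = w x`, `β_p = w x⁻¹`; then `y = x + x⁻¹` is real, `|y| = |a_p|`, and `y ∏_v (y² - v²)` is a real
combination of the characters of the `Sym^k ⊗ det^{-(k-1)/2}`, `k` odd, divided by `w`. These L-functions are not
self-dual; we apply the relation principle of `Pool.Agent.N845.SP` to `L(s + it, ρ_k) L(s - it, ρ_k^∨)` for two values
of `t`. New is also the extension of the principle to relations which fail on a sparse set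
(`Pool.Agent.U253.EEA.zero3`): the Dirichlet series over `T` is bounded up to the line `Re s = 1/2`, so it
contributes nothing to the residues there, and the frequency `log p`, `p ∈ T`, is then killed as the higher prime
powers are. So `x_p` is a root of unity, and the characters reduce, with the right parity, to the first ones
with INTEGRAL coefficients. Finally the weights of `ρ` on the diagonal torus form a symmetric set.
-/

set_option autoImplicit false

open Filter Topology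

namespace Pool.Agent.Results.MP_eea520_nt.AllRepresentations

/-- `∏_{m ∈ μ} Γ_ℝ(s + m)⁻¹`, `Γ_ℝ(s) = π^{-s/2} Γ(s/2)` -/
noncomputable def invGamma (μ : List ℂ) (s : ℂ) : ℂ := (μ.map fun m => (Complex.Gammaℝ (s + m))⁻¹).prod

/-- `∏_{(p, b) ∈ l} (1 - b p^{-s})` -/
noncomputable def finEuler (l : List (ℕ × ℂ)) (s : ℂ) : ℂ :=
  (l.map fun x => 1 - x.2 * (x.1 : ℂ) ^ (-s)).prod

/-- the eigenvalues `α_p^{k-i} β_p^i (α_p β_p)^l`, `0 ≤ i ≤ k`, of `(Sym^k ⊗ det^l)(A_p)` -/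
noncomputable def eigenvalue (α β : ℕ → ℂ) (k : ℕ) (l : ℤ) (p i : ℕ) : ℂ :=
  α p ^ (k - i) * β p ^ i * (α p * β p) ^ l

/-- the archimedean parameters of `Sym^k ⊗ det^l`: the gamma factor is `∏_{0 ≤ i ≤ k} Γ_ℝ(s + r (k - 2 i) + δ_i)`
with `δ_i ∈ {0, 1}` the residue of `(k - i + l) e + (i + l) f` modulo `2` -/
noncomputable def archimedean (r : ℂ) (e f : ℤ) (k : ℕ) (l : ℤ) : List ℂ :=
  (List.range (k + 1)).map fun i : ℕ => r * ((k : ℂ) - 2 * i) +
    (((((k : ℤ) - i + l) * e + (i + l) * f) % 2 : ℤ) : ℂ)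

/-- the Euler product `∏_{p ∉ S} F p s` extends to the meromorphic function `N/D` on `ℂ` -/
structure Continuation (S : Finset ℕ) (F : ℕ → ℂ → ℂ) (N D : ℂ → ℂ) : Prop where
  /-- `N` is entire -/
  entire_N : Differentiable ℂ N
  /-- `D` is entire -/
  entire_D : Differentiable ℂ D
  /-- `N` and `D` are of order at most `3/2` -/
  order : ∃ C : ℝ, ∀ s, ‖N s‖ ≤ Real.exp (C * (1 + ‖s‖) ^ (3 / 2 : ℝ)) ∧
    ‖D s‖ ≤ Real.exp (C * (1 + ‖s‖) ^ (3 / 2 : ℝ))
  /-- `D` has no zeros in `Re s > 1` -/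
  ne_zero : ∀ s : ℂ, 1 < s.re → D s ≠ 0
  /-- the partial Euler products converge to `N/D` in `Re s > 1` -/
  euler : ∀ s : ℂ, 1 < s.re → Tendsto (fun X : ℕ =>
    ∏ p ∈ (Finset.range X).filter (fun p => p.Prime ∧ p ∉ S), F p s) atTop (𝓝 (N s / D s))

/-- the functional equation between `N/D`, with the archimedean parameters `μ`, and the L-function `N'/D'` of the
dual representation, with the archimedean parameters `μ'`: with
`Λ(s) = q^s · (invGamma μ s · finEuler m s)⁻¹ · finEuler l' s · N s / D s` and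
`Λ'(s) = q^s · (invGamma μ' s · finEuler l s)⁻¹ · finEuler m' s · N' s / D' s` it says `Λ(s) = ε Λ'(1 - s)` -/
def FunctionalEquation (S : Finset ℕ) (μ μ' : List ℂ) (N D N' D' : ℂ → ℂ) : Prop :=
  ∃ (l l' m m' : List (ℕ × ℂ)) (q : ℝ) (ε : ℂ), 0 < q ∧ ε ≠ 0 ∧
    (∀ x ∈ l, x.1.Prime ∧ x.1 ∈ S) ∧ (∀ x ∈ l', x.1.Prime ∧ x.1 ∈ S) ∧
    (∀ x ∈ m, x.1.Prime ∧ x.1 ∈ S) ∧ (∀ x ∈ m', x.1.Prime ∧ x.1 ∈ S) ∧
    ∀ s, (q : ℂ) ^ s * invGamma μ' (1 - s) * finEuler l (1 - s) * finEuler l' s * (N s * D' (1 - s)) =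
      ε * (q : ℂ) ^ (1 - s) * invGamma μ s * finEuler m s * finEuler m' (1 - s) * (N' (1 - s) * D s)

/-- the properties of `π` which are used -/
structure Automorphic (S : Finset ℕ) (A : ℕ → GL (Fin 2) ℂ) (α β : ℕ → ℂ) (r : ℂ) (e f : ℤ)
    (K : ℕ) : Prop where
  /-- `A_p` is semisimple with the eigenvalues `α_p`, `β_p` -/
  satake : ∀ p : ℕ, p.Prime → p ∉ S → ∃ g : GL (Fin 2) ℂ,
    ((g * A p * g⁻¹ : GL (Fin 2) ℂ) : Matrix (Fin 2) (Fin 2) ℂ) = !![α p, 0; 0, β p]
  /-- `π_p` is unitary: `{conj(α_p)⁻¹, conj(β_p)⁻¹} = {α_p, β_p}` -/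
  unitary : ∀ p : ℕ, p.Prime → p ∉ S →
    (((starRingEnd ℂ) (α p))⁻¹ = α p ∧ ((starRingEnd ℂ) (β p))⁻¹ = β p) ∨
    (((starRingEnd ℂ) (α p))⁻¹ = β p ∧ ((starRingEnd ℂ) (β p))⁻¹ = α p)
  /-- `L_S(s, π, Sym^k ⊗ det^l)`, `k ≤ K`, continues and has the expected functional equation, which relates it to
  the dual representation `Sym^k ⊗ det^{-k-l}` -/
  nice : ∃ N D : ℕ → ℤ → ℂ → ℂ, ∀ k ≤ K, ∀ l : ℤ,
    Continuation S (fun p s => ∏ i ∈ Finset.range (k + 1),
      (1 - eigenvalue α β k l p i * (p : ℂ) ^ (-s))⁻¹) (N k l) (D k l) ∧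
    FunctionalEquation S (archimedean r e f k l) (archimedean r e f k (-k - l)) (N k l) (D k l)
      (N k (-k - l)) (D k (-k - l))

/-- a representation of `GL_2(ℂ)` is algebraic: its matrix coefficients are polynomials in the entries of `g`,
divided by powers of `det g` -/
def Algebraic {m : ℕ} (ρ : GL (Fin 2) ℂ →* GL (Fin m) ℂ) : Prop :=
  ∀ i j : Fin m, ∃ (P : MvPolynomial (Fin 2 × Fin 2) ℂ) (d : ℕ), ∀ g : GL (Fin 2) ℂ,
    (ρ g : Matrix (Fin m) (Fin m) ℂ) i j * (g : Matrix (Fin 2) (Fin 2) ℂ).det ^ d =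
      MvPolynomial.eval (fun x => (g : Matrix (Fin 2) (Fin 2) ℂ) x.1 x.2) P

/-- **All algebraic representations, arbitrary central character, sparse exceptional sets.** -/
theorem result {S : Finset ℕ} {A : ℕ → GL (Fin 2) ℂ} {α β : ℕ → ℂ} {r : ℂ} {e f : ℤ} {K : ℕ}
    (hπ : Automorphic S A α β r e f K) {T : Set ℕ}
    (hT : Summable ({p : ℕ | p.Prime ∧ p ∈ T}.indicator
      fun p : ℕ => Real.log p * (p : ℝ) ^ (-(1 / 2) : ℝ)))
    (hb : ∃ C : ℝ, ∀ p : ℕ, p.Prime → p ∉ S → p ∈ T → ‖α p‖ ≤ C ∧ ‖β p‖ ≤ C) {M : ℕ}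
    (hM : 2 * M + 1 ≤ K)
    (hV : ((fun p => ‖α p + β p‖) '' {p : ℕ | p.Prime ∧ p ∉ S ∧ p ∉ T} \ {0}).encard ≤ M) :
    r = 0 ∧
    (∀ p : ℕ, p.Prime → p ∉ S → ‖α p‖ = 1 ∧ ‖β p‖ = 1 ∧
      (∃ n : ℕ, 0 < n ∧ n ≤ 2 * M + 1 ∧ α p ^ n = β p ^ n) ∧
      (‖α p + β p‖ = 0 ∨
        ‖α p + β p‖ ∈ (fun p => ‖α p + β p‖) '' {p : ℕ | p.Prime ∧ p ∉ S ∧ p ∉ T})) ∧
    ∀ (m : ℕ) (ρ : GL (Fin 2) ℂ →* GL (Fin m) ℂ), Algebraic ρ → ∃ N D : ℂ → ℂ,
      Continuation S (fun p s => (1 - (p : ℂ) ^ (-s) •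
        ((ρ (A p) : GL (Fin m) ℂ) : Matrix (Fin m) (Fin m) ℂ)).det⁻¹) N D := by
  classical
  obtain ⟨hA, hu, N, D, hND⟩ := hπ
  obtain ⟨C₀, hC⟩ := hb
  have hdet : ∀ p : ℕ, p.Prime → p ∉ S → ‖α p * β p‖ = 1 ∧
      (starRingEnd ℂ) (α p + β p) * (α p * β p) = α p + β p := by
    intro p hp hpS
    obtain ⟨g, hg⟩ := hA p hp hpS
    have hd : α p * β p ≠ 0 := by
      have h1 := congrArg Matrix.det hg
      rw [Matrix.det_fin_two_of, mul_zero, sub_zero] at h1
      rw [← h1]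
      exact ((Matrix.isUnit_iff_isUnit_det _).1 (g * A p * g⁻¹).isUnit).ne_zero
    have hα : α p ≠ 0 := left_ne_zero_of_mul hd
    have hβ : β p ≠ 0 := right_ne_zero_of_mul hd
    have hα' : (starRingEnd ℂ) (α p) ≠ 0 := by simpa using hα
    have hβ' : (starRingEnd ℂ) (β p) ≠ 0 := by simpa using hβ
    have hsq : ∀ z : ℂ, z ≠ 0 → ((starRingEnd ℂ) z)⁻¹ = z → ‖z‖ = 1 := by
      intro z hz h
      have h1 := congrArg norm h
      rw [norm_inv, RCLike.norm_conj] at h1
      have h2 : 0 < ‖z‖ := norm_pos_iff.2 hz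
      field_simp at h1
      nlinarith
    rcases hu p hp hpS with ⟨h1, h2⟩ | ⟨h1, h2⟩
    · refine ⟨by rw [norm_mul, hsq _ hα h1, hsq _ hβ h2, one_mul], ?_⟩
      have e1 : (starRingEnd ℂ) (α p) * α p = 1 := by
        nth_rewrite 2 [← h1]
        exact mul_inv_cancel₀ hα'
      have e2 : (starRingEnd ℂ) (β p) * β p = 1 := by
        nth_rewrite 2 [← h2]
        exact mul_inv_cancel₀ hβ'
      rw [map_add]
      linear_combination β p * e1 + α p * e2
    · have e1 : (starRingEnd ℂ) (α p) * β p = 1 := by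
        rw [← h1]
        exact mul_inv_cancel₀ hα'
      have e2 : (starRingEnd ℂ) (β p) * α p = 1 := by
        rw [← h2]
        exact mul_inv_cancel₀ hβ'
      refine ⟨?_, ?_⟩
      · have h3 := congrArg norm e1
        rw [norm_mul, RCLike.norm_conj, norm_one] at h3
        rw [norm_mul, h3]
      · rw [map_add]
        linear_combination α p * e1 + β p * e2
  have hfin : ((fun p => ‖α p + β p‖) '' {p : ℕ | p.Prime ∧ p ∉ S ∧ p ∉ T} \ {0}).Finite :=
    Set.finite_of_encard_le_coe (k := M) hV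
  set V : Finset ℝ := hfin.toFinset with hVd
  have hcard : V.card ≤ M := by
    rw [hfin.encard_eq_coe_toFinset_card] at hV
    exact_mod_cast hV
  obtain ⟨h1, h2, h3⟩ := Pool.Agent.U253.EEA.all_rep (S := S) (A := A) (α := α) (β := β) (r := r) (e := e)
    (f := f) (K := K) (N := N) (D := D) hA (fun p hp hpS => (hdet p hp hpS).1)
    (fun p hp hpS => (hdet p hp hpS).2)
    (fun k hk l => by
      obtain ⟨⟨a1, a2, a3, a4, a5⟩, -⟩ := hND k hk l
      exact ⟨a1, a2, a3, a4, a5⟩)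
    (fun k hk l => (hND k hk l).2) (T := T) hT (C₀ := C₀) hC V (by omega)
    (fun p hp hpS hpT => by
      by_cases h0 : ‖α p + β p‖ = 0
      · exact Or.inl h0
      · refine Or.inr ?_
        rw [hVd, Set.Finite.mem_toFinset]
        exact ⟨⟨p, ⟨hp, hpS, hpT⟩, rfl⟩, h0⟩)
  refine ⟨h1, fun p hp hpS => ?_, fun m ρ hρ => ?_⟩
  · obtain ⟨b1, b2, ⟨n, hn0, hn, hn2⟩, b4⟩ := h2 p hp hpS
    refine ⟨b1, b2, ⟨n, hn0, by omega, hn2⟩, ?_⟩
    rcases b4 with b4 | ⟨v, hv, b4⟩
    · exact Or.inl b4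
    · refine Or.inr ?_
      rw [hVd, Set.Finite.mem_toFinset] at hv
      obtain ⟨⟨q, hq, hqv⟩, -⟩ := hv
      have hv0 : 0 ≤ v := by
        rw [← hqv]
        exact norm_nonneg _
      rw [b4, abs_of_nonneg hv0]
      exact ⟨q, hq, hqv⟩
  · obtain ⟨N', D', c1, c2, c3, c4, c5⟩ := h3 m ρ hρ
    exact ⟨N', D', c1, c2, c3, c4, c5⟩

end Pool.Agent.Results.MP_eea520_nt.AllRepresentations
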