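import Pool.Agent.U857.GS.Weyl

/-!
# `PGSp(2n)`: continuation for all `ρ` from a finite list, for forms with finitely many Satake classes

`G = GSp(2n)`, `n` arbitrary, trivial central character. The Satake class of `π_p` in the dual torus of
`GSpin_{2n+1}(ℂ)` is given by Satake parameters `α_p = (α_{p,0}; α_{p,1}, …, α_{p,n})`; trivial central character
means `α_{p,0}² α_{p,1} ⋯ α_{p,n} = 1`. The weights of the torus are the vectors `k = (k₀; k₁, …, k_n)` of integers,
with the value `α_{p,0}^{k₀} α_{p,1}^{k₁} ⋯ α_{p,n}^{k_n}`; the Weyl group is generated by the permutations of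
`k₁, …, k_n` and by the reflections `k_i ↦ k₀ - k_i`. A finite-dimensional representation `ρ` has a finite Weyl
invariant multiset of weights, and `L_S(s, π, ρ)` is the Euler product over this multiset. For instance the spin
representation `r` has the `2^n` weights with `k₀ = 1`, `k_i ∈ {0, 1}`.

**Theorem.** Let `n` be arbitrary, let `V` be a finite set of Satake parameters, and let `R` be the set of the
weight multisets of the irreducible representations (or any set of Weyl invariant multisets which generates all of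
them additively). There are a finite list `L ⊆ R` and a number `m`, depending only on `n`, `V` and `R`, such that the
following holds for all `π` (unramified outside a finite set `S`) whose Satake parameters lie in `V` for all but
finitely many `p`: if the listed L-functions have a meromorphic continuation of order at most `3/2` with a functional
equation, then

* every Satake class of `π` outside `S` is of finite order, dividing `m` (so the Ramanujan conjecture holds at every
  unramified prime, exceptional or not), and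
* `L_S(s, π, ρ)` has a meromorphic continuation to `ℂ`, of order at most `3/2`, for **every** `ρ`.

Idea. Orbit sums of finitely many weights separate the points of the dual torus from the finite set of all Weyl
transforms of `V` and its conjugate. A linear relation between traces at almost all primes passes to all powers at all
unramified primes (`Pool.Agent.N845.SP.rel_all`, from the orders in the functional equations). So all the powers of
the Satake classes stay in a fixed finite set: they are torsion. Traces on a finite set of torsion classes generate a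
finitely generated abelian group, so finitely many `ρ` generate all of them integrally, on all powers of all Satake
classes.
-/

set_option autoImplicit false

namespace Pool.Agent.Results.MP_eea520_nt.FiniteList

open Filter Topology Complex

/-- The weights `(k₀; k₁, …, k_n)` of the maximal torus of `GSpin_{2n+1}(ℂ)`. -/
abbrev Weight (n : ℕ) : Type := ℤ × (Fin n → ℤ)

/-- The value `α₀^{k₀} α₁^{k₁} ⋯ α_n^{k_n}` of the weight `k` at the Satake parameters `α`. -/
noncomputable def value {n : ℕ} (α : ℂ × (Fin n → ℂ)) (k : Weight n) : ℂ :=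
  α.1 ^ k.1 * ∏ i, α.2 i ^ k.2 i

/-- Invariance of a finite multiset of weights under the Weyl group, generated by the permutations of `k₁, …, k_n`
and the reflections `k_i ↦ k₀ - k_i`. -/
structure WeylInvariant {n : ℕ} (M : Multiset (Weight n)) : Prop where
  perm : ∀ σ : Equiv.Perm (Fin n), M.map (fun k => ((k.1, k.2 ∘ σ) : Weight n)) = M
  refl : ∀ i : Fin n, M.map (fun k => ((k.1, Function.update k.2 i (k.1 - k.2 i)) : Weight n)) = M

/-- `N/D`, with `N` and `D` entire of order at most `3/2`, is a meromorphic continuation of the Euler product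
`L_S(s, M) = ∏_{p ∉ S} ∏_{k ∈ M} (1 - α_p^k p^{-s})⁻¹`, `Re s > 1`. -/
structure Continuation {n : ℕ} (S : Finset ℕ) (α : ℕ → ℂ × (Fin n → ℂ)) (M : Multiset (Weight n))
    (N D : ℂ → ℂ) : Prop where
  entire_N : Differentiable ℂ N
  entire_D : Differentiable ℂ D
  order : ∃ C : ℝ, ∀ s, ‖N s‖ ≤ Real.exp (C * (1 + ‖s‖) ^ (3 / 2 : ℝ)) ∧
    ‖D s‖ ≤ Real.exp (C * (1 + ‖s‖) ^ (3 / 2 : ℝ))
  ne_zero : ∀ s : ℂ, 1 < s.re → D s ≠ 0
  euler : ∀ s : ℂ, 1 < s.re → Tendsto (fun X : ℕ =>
    ∏ p ∈ (Finset.range X).filter (fun p => p.Prime ∧ p ∉ S),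
      (M.map fun k => (1 - value (α p) k * (p : ℂ) ^ (-s))⁻¹).prod) atTop (𝓝 (N s / D s))

/-- Product of inverse gamma factors `1 / Γ_ℝ(s + μ_j)`. -/
noncomputable def invGamma (μ : List ℂ) (s : ℂ) : ℂ := (μ.map fun m => (Gammaℝ (s + m))⁻¹).prod

/-- Finite product of inverse Euler factors `1 - b p^{-s}`. -/
noncomputable def finEuler (l : List (ℕ × ℂ)) (s : ℂ) : ℂ :=
  (l.map fun x => 1 - x.2 * (x.1 : ℂ) ^ (-s)).prod

/-- The functional equation of `L = N/D`: with
`Λ(s) = q^s · (invGamma μ s)⁻¹ · finEuler l' s / finEuler l s · N s / D s` it says `Λ(s) = ε Λ(1 - s)`. -/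
def FunctionalEquation (S : Finset ℕ) (N D : ℂ → ℂ) : Prop :=
  ∃ (μ : List ℂ) (l l' : List (ℕ × ℂ)) (q : ℝ) (ε : ℂ), 0 < q ∧ ε ≠ 0 ∧
    (∀ x ∈ l, x.1.Prime ∧ x.1 ∈ S) ∧ (∀ x ∈ l', x.1.Prime ∧ x.1 ∈ S) ∧
    ∀ s, (q : ℂ) ^ s * invGamma μ (1 - s) * finEuler l (1 - s) * finEuler l' s * (N s * D (1 - s)) =
      ε * (q : ℂ) ^ (1 - s) * invGamma μ s * finEuler l s * finEuler l' (1 - s) * (N (1 - s) * D s)

/-- **A finite list of `ρ` suffices.** `R` is a set of Weyl invariant multisets of weights such that every Weyl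
invariant multiset is a difference of two sums of elements of `R` (for instance the weight multisets of the
irreducible representations), `V` a finite set. The list `L` and the number `m` depend only on `n`, `R`, `V`. -/
theorem result (n : ℕ) (R : Set (Multiset (Weight n))) (hR : ∀ M ∈ R, WeylInvariant M)
    (hspan : ∀ M : Multiset (Weight n), WeylInvariant M → ∃ A B : Multiset (Multiset (Weight n)),
      (∀ x ∈ A, x ∈ R) ∧ (∀ x ∈ B, x ∈ R) ∧ M + A.sum = B.sum)
    (V : Set (ℂ × (Fin n → ℂ))) (hV : V.Finite) :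
    ∃ (L : Finset (Multiset (Weight n))) (m : ℕ), (∀ x ∈ L, x ∈ R) ∧ 0 < m ∧
      ∀ (S T : Finset ℕ) (α : ℕ → ℂ × (Fin n → ℂ)),
        (∀ p : ℕ, p.Prime → p ∉ S → (α p).1 ≠ 0 ∧ ∀ i, (α p).2 i ≠ 0) →
        (∀ p : ℕ, p.Prime → p ∉ S → (α p).1 ^ 2 * ∏ i, (α p).2 i = 1) →
        (∀ p : ℕ, p.Prime → p ∉ T → α p ∈ V) →
        (∀ x ∈ L, ∃ N D : ℂ → ℂ, Continuation S α x N D ∧ FunctionalEquation S N D) →
        (∀ p : ℕ, p.Prime → p ∉ S → (α p).1 ^ m = 1 ∧ ∀ i, (α p).2 i ^ m = 1) ∧
        ∀ M : Multiset (Weight n), WeylInvariant M → ∃ N D : ℂ → ℂ, Continuation S α M N D := by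
  classical
  obtain ⟨r, e, he⟩ := Pool.Agent.U857.GS.exists_gen n
  have hw : ∀ M : Multiset (Weight n), WeylInvariant M ↔ Pool.Agent.U857.GS.WInv M := fun M =>
    ⟨fun h => ⟨h.perm, h.refl⟩, fun h => ⟨h.perm, h.refl⟩⟩
  have hRo : ∀ a : Weight n, ∃ A B : Multiset (Multiset (Weight n)), (∀ x ∈ A, x ∈ R) ∧
      (∀ x ∈ B, x ∈ R) ∧ Pool.Agent.U857.GS.orb (Pool.Agent.U857.GS.HH n) a + A.sum = B.sum :=
    fun a => hspan _ ((hw _).2 (Pool.Agent.U857.GS.orb_inv a))
  obtain ⟨L, m, hm, hL, h⟩ := Pool.Agent.U857.GS.main he (Pool.Agent.U857.GS.HH n) R hRo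
    (hV.toFinset.image Pool.Agent.U857.GS.toChar)
  refine ⟨L, m, hL, hm, fun S T α h0 hω hT hn => ?_⟩
  have hval : ∀ p : ℕ, p.Prime → p ∉ S → ∀ k : Weight n,
      Pool.Agent.U857.GS.toChar (α p) k = value (α p) k := fun p hp hpS k =>
    Pool.Agent.U857.GS.toChar_apply (h0 p hp hpS).1 (h0 p hp hpS).2 k
  have hprod : ∀ (M : Multiset (Weight n)) (s : ℂ) (X : ℕ),
      ∏ p ∈ (Finset.range X).filter (fun p => p.Prime ∧ p ∉ S),
        (M.map fun k => (1 - Pool.Agent.U857.GS.toChar (α p) k * (p : ℂ) ^ (-s))⁻¹).prod =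
      ∏ p ∈ (Finset.range X).filter (fun p => p.Prime ∧ p ∉ S),
        (M.map fun k => (1 - value (α p) k * (p : ℂ) ^ (-s))⁻¹).prod := by
    intro M s X
    refine Finset.prod_congr rfl fun p hp => ?_
    rw [Finset.mem_filter] at hp
    simp only [hval p hp.2.1 hp.2.2]
  obtain ⟨h1, h2⟩ := h S T (fun p => Pool.Agent.U857.GS.toChar (α p))
    (fun p hp hpT => Finset.mem_image_of_mem _ (hV.mem_toFinset.2 (hT p hp hpT)))
    (fun p hp hpS x hx => by
      have h3 := Pool.Agent.U857.GS.w0_map ((hw x).1 (hR x hx))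
      have h4 := congrArg (fun s : Multiset (Weight n) =>
        s.map (Pool.Agent.U857.GS.toChar (α p))) h3
      simp only [Multiset.map_map] at h4
      rw [← h4]
      refine Multiset.map_congr rfl fun k _ => ?_
      simp only [Function.comp]
      rw [Pool.Agent.U857.GS.toChar_apply (h0 p hp hpS).1 (h0 p hp hpS).2,
        Pool.Agent.U857.GS.toChar_apply (h0 p hp hpS).1 (h0 p hp hpS).2,
        Pool.Agent.U857.GS.mval_w0 (h0 p hp hpS).1 (h0 p hp hpS).2 (hω p hp hpS)])
    (fun x hx => by
      obtain ⟨N, D, h3, h4⟩ := hn x hx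
      refine ⟨N, D, ⟨h3.entire_N, h3.entire_D, h3.order, h3.ne_zero, fun s hs => ?_⟩, h4⟩
      simp only [hprod]
      exact h3.euler s hs)
  refine ⟨fun p hp hpS => ?_, fun M hM => ?_⟩
  · have h3 := h1 p hp hpS
    have h5 : ∀ k : Weight n, value (α p) k ^ m = 1 := by
      intro k
      rw [← hval p hp hpS, ← AddChar.pow_apply, h3, AddChar.one_apply]
    constructor
    · have := h5 (1, fun _ => 0)
      simpa [value] using this
    · intro i
      have := h5 (0, Pi.single i 1)
      have e2 : value (α p) ((0, Pi.single i 1) : Weight n) = (α p).2 i := by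
        unfold value
        simp only [zpow_zero, one_mul]
        rw [Finset.prod_eq_single i]
        · simp
        · intro j _ hj
          simp [Pi.single_eq_of_ne hj]
        · intro h
          exact absurd (Finset.mem_univ _) h
      rwa [e2] at this
  · obtain ⟨A, B, hA, hB, hAB⟩ := hspan M hM
    obtain ⟨N, D, h3⟩ := h2 M A B hA hB hAB
    refine ⟨N, D, h3.diffN, h3.diffD, h3.order, h3.ne, fun s hs => ?_⟩
    have h4 := h3.euler s hs
    simp only [hprod] at h4
    exact h4

end Pool.Agent.Results.MP_eea520_nt.FiniteList
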