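import Pool.Agent.U253.SPL.GSp

/-!
# `GSp(2n)`: one small relation gives continuation for all `ρ` from a finite list

`G = GSp(2n)`, `n` arbitrary. The Satake class of `π_p` in the dual torus of `GSpin_{2n+1}(ℂ)` is given by Satake
parameters `α_p = (α_{p,0}; α_{p,1}, …, α_{p,n})`, and `ω(p) = α_{p,0}² α_{p,1} ⋯ α_{p,n}` is the value of the central
character, which is assumed to be of finite order dividing `h`. The weights of the torus are the integral vectors
`k = (k₀; k₁, …, k_n)`, with the value `α_{p,0}^{k₀} α_{p,1}^{k₁} ⋯ α_{p,n}^{k_n}`; the Weyl group is generated by the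
permutations of `k₁, …, k_n` and by the reflections `k_i ↦ k₀ - k_i`. A finite-dimensional representation `ρ` has a
Weyl invariant multiset of weights, and `L_S(s, π, ρ)` is the Euler product over this multiset; the spin
representation `r` has the `2^n` weights with `k₀ = 1`, `k_i ∈ {0, 1}`.

**Theorem.** Let `P = ∑_j c_j tr ρ_j` be a real linear combination of characters such that `c_j > 0` whenever a weight of
`ρ_j` lies on the boundary of the convex hull of all weights, and let not all `ρ_j` be powers of the similitude character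
(examples: `P = tr r - c`; `P = tr ρ_0 + ∑ c_j tr ρ_j` with `ρ_j` smaller than `ρ_0`). There are `m ≥ 1` and a FINITE
list `L` of representations (taken from any generating set `R`, for instance the irreducible ones), which depend
only on `n`, `h` and `P`, not on `π`, such that the following holds for every unitary `π`. Assume that the
`L_S(s, π, ρ_j)` have continuation and functional equation, and that

  `P(A_p)` is small: `|P(A_p)| ≤ g(p)` with `∑_{p < X} g(p) log p = o(√X)`, the eigenvalues of the `ρ_j(A_p)` being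
  bounded by a constant, or, at exceptional primes, only by `g(p)`.

Then (1) `A_p^m = 1` for EVERY `p ∉ S` (so `π` is tempered at all of them, with finitely many Satake classes); here
nothing is assumed but the `L_S(s, π, ρ_j)`, which for `n = 2` may be those of the spin and the standard representation
and of products of two of them. (2) If moreover `L_S(s, π, ρ)`, `ρ ∈ L`, have a continuation, then `L_S(s, π, ρ)` has a
meromorphic continuation to `ℂ` for EVERY finite-dimensional representation `ρ` of the L-group.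

The starting results treat `n = 1` (`AllSymmetricPowers`); `FiniteList` (same problem) treats all `n`, but it assumes
that the Satake classes at all primes outside a finite set lie in a given FINITE set, and trivial central character. Here
a finite set of classes is replaced by ONE hypersurface `P = 0`, equality by smallness on average, finitely many exceptions
by infinitely many with unbounded parameters, and the central character is any character of finite order.

Idea. (1) The relation with error term is exact at all powers (`U253.GAP`, `U253.SPL.gap_gen`): the multiplicities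
`∑_j c_j #{k ∈ ρ_j : α_p^k = z}` vanish for all `z`. (2) For a point `x` of the torus let `F_x` be the set of pairs of weights
`(k, k')` with `x^k = x^{k'}`; there are only finitely many `F_x`. The multiplicities depend only on `F_x`, and a linear
functional which vanishes on all `k - k'`, `(k, k') ∈ F_x`, must be constant on all weights, because at its maximum
only positive `c_j` occur. Hence the `k - k'`, `(k, k') ∈ F_x`, span a subgroup of finite index in the group of all
differences of weights, of index bounded in terms of the weights alone: this gives `m`. (3) The virtual characters,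
restricted to the `m`-torsion of the torus, form a finitely generated group (`U857.GS.integ`).
-/

set_option autoImplicit false

namespace Pool.Agent.Results.MP_eea520_nt.OneSmallRelation

open Filter Topology Complex Asymptotics

/-- The weights `(k₀; k₁, …, k_n)` of the maximal torus of `GSpin_{2n+1}(ℂ)`. -/
abbrev Weight (n : ℕ) : Type := ℤ × (Fin n → ℤ)

/-- The value `α₀^{k₀} α₁^{k₁} ⋯ α_n^{k_n}` of the weight `k` at the Satake parameters `α`. -/
noncomputable def value {n : ℕ} (α : ℂ × (Fin n → ℂ)) (k : Weight n) : ℂ :=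
  α.1 ^ k.1 * ∏ i, α.2 i ^ k.2 i

/-- Invariance of a finite multiset of weights under the Weyl group, generated by the permutations of `k₁, …, k_n`
and the reflections `k_i ↦ k₀ - k_i`. -/
structure WeylInvariant {n : ℕ} (M : Multiset (Weight n)) : Prop where
  perm : ∀ σ : Equiv.Perm (Fin n), M.map (fun k => ((k.1, k.2 ∘ σ) : Weight n)) = M
  refl : ∀ i : Fin n, M.map (fun k => ((k.1, Function.update k.2 i (k.1 - k.2 i)) : Weight n)) = M

/-- The weights of the dual representation. -/
def dual {n : ℕ} (M : Multiset (Weight n)) : Multiset (Weight n) := M.map fun k => -k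

/-- `N/D`, with `N` and `D` entire of order at most `3/2`, is a meromorphic continuation of the Euler product
`L_S(s, M) = ∏_{p ∉ S} ∏_{k ∈ M} (1 - α_p^k p^{-s})⁻¹`, `Re s > 1`. -/
structure Continuation {n : ℕ} (S : Finset ℕ) (α : ℕ → ℂ × (Fin n → ℂ)) (M : Multiset (Weight n))
    (N D : ℂ → ℂ) : Prop where
  entire_N : Differentiable ℂ N
  entire_D : Differentiable ℂ D
  order : ∃ C : ℝ, ∀ s, ‖N s‖ ≤ Real.exp (C * (1 + ‖s‖) ^ (3 / 2 : ℝ)) ∧
    ‖D s‖ ≤ Real.exp (C * (1 + ‖s‖) ^ (3 / 2 : ℝ))
  ne_zero : ∀ s : ℂ, 1 < s.re → D s ≠ 0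
  euler : ∀ s : ℂ, 1 < s.re → Tendsto (fun X : ℕ =>
    ∏ p ∈ (Finset.range X).filter (fun p => p.Prime ∧ p ∉ S),
      (M.map fun k => (1 - value (α p) k * (p : ℂ) ^ (-s))⁻¹).prod) atTop (𝓝 (N s / D s))

/-- Product of inverse gamma factors `1 / Γ_ℝ(s + μ_j)`. -/
noncomputable def invGamma (μ : List ℂ) (s : ℂ) : ℂ := (μ.map fun m => (Gammaℝ (s + m))⁻¹).prod

/-- Finite product of inverse Euler factors `1 - b p^{-s}`. -/
noncomputable def finEuler (l : List (ℕ × ℂ)) (s : ℂ) : ℂ :=
  (l.map fun x => 1 - x.2 * (x.1 : ℂ) ^ (-s)).prod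

/-- The functional equation between `N/D` and the L-function `N'/D'` of the dual representation: with
`Λ(s) = q^s · (invGamma κ s · finEuler m s)⁻¹ · finEuler l' s · N s / D s` and
`Λ'(s) = q^s · (invGamma κ' s · finEuler l s)⁻¹ · finEuler m' s · N' s / D' s` it says `Λ(s) = ε Λ'(1 - s)`. -/
def FunctionalEquation (S : Finset ℕ) (N D N' D' : ℂ → ℂ) : Prop :=
  ∃ (κ κ' : List ℂ) (l l' m m' : List (ℕ × ℂ)) (q : ℝ) (ε : ℂ), 0 < q ∧ ε ≠ 0 ∧
    (∀ x ∈ l, x.1.Prime ∧ x.1 ∈ S) ∧ (∀ x ∈ l', x.1.Prime ∧ x.1 ∈ S) ∧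
    (∀ x ∈ m, x.1.Prime ∧ x.1 ∈ S) ∧ (∀ x ∈ m', x.1.Prime ∧ x.1 ∈ S) ∧
    ∀ s, (q : ℂ) ^ s * invGamma κ' (1 - s) * finEuler l (1 - s) * finEuler l' s * (N s * D' (1 - s)) =
      ε * (q : ℂ) ^ (1 - s) * invGamma κ s * finEuler m s * finEuler m' (1 - s) * (N' (1 - s) * D s)

/-- Satake parameters of a unitary representation of `GSp(2n)`, unramified outside `S`, whose central character is
of order dividing `h`. -/
structure Satake {n : ℕ} (h : ℕ) (S : Finset ℕ) (α : ℕ → ℂ × (Fin n → ℂ)) : Prop where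
  ne_zero : ∀ p : ℕ, p.Prime → p ∉ S → (α p).1 ≠ 0 ∧ ∀ i, (α p).2 i ≠ 0
  central : ∀ p : ℕ, p.Prime → p ∉ S → ((α p).1 ^ 2 * ∏ i, (α p).2 i) ^ h = 1
  /-- the class and its conjugate inverse have the same eigenvalues in all representations -/
  unitary : ∀ p : ℕ, p.Prime → p ∉ S → ∀ M : Multiset (Weight n), WeylInvariant M →
    (M.map fun k => ((starRingEnd ℂ) (value (α p) k))⁻¹) = M.map (value (α p))

/-- The pairing of a coweight and a weight. -/
def pairing {n : ℕ} (a k : Weight n) : ℤ := a.1 * k.1 + ∑ i, a.2 i * k.2 i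

/-- The coefficient `c j` is positive whenever some weight of `ρ j` is extreme among all weights in the direction of some
cocharacter `a` of the derived group (`2 a₀ + ∑ a_i = 0`) on which not all weights agree. -/
def PositiveOnFaces {n : ℕ} {J : Type} (ρ : J → Multiset (Weight n)) (c : J → ℝ) : Prop :=
  ∀ a : Weight n, 2 * a.1 + ∑ i, a.2 i = 0 →
    (∃ i, ∃ j, ∃ k ∈ ρ i, ∃ k' ∈ ρ j, pairing a k ≠ pairing a k') →
    ∀ j, ∀ k ∈ ρ j, (∀ i, ∀ k' ∈ ρ i, pairing a k' ≤ pairing a k) → 0 < c j

/-- **One small relation and a finite list of `ρ` suffice for all `ρ`.** -/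
theorem result (n h : ℕ) (hh : 0 < h) (R : Set (Multiset (Weight n)))
    (hspan : ∀ M : Multiset (Weight n), WeylInvariant M → ∃ A B : Multiset (Multiset (Weight n)),
      (∀ x ∈ A, x ∈ R) ∧ (∀ x ∈ B, x ∈ R) ∧ M + A.sum = B.sum)
    {J : Type} [Fintype J] (ρ : J → Multiset (Weight n)) (hρ : ∀ j, WeylInvariant (ρ j))
    (hnt : ∃ j, ∃ k ∈ ρ j, ∃ i, 2 * k.2 i ≠ k.1) (c : J → ℝ) (hc : PositiveOnFaces ρ c) :
    ∃ (L : Finset (Multiset (Weight n))) (m : ℕ), (∀ x ∈ L, x ∈ R) ∧ 0 < m ∧
      ∀ (S : Finset ℕ) (α : ℕ → ℂ × (Fin n → ℂ)), Satake h S α →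
        (∀ j, ∃ N D N' D' : ℂ → ℂ, Continuation S α (ρ j) N D ∧
          Continuation S α (dual (ρ j)) N' D' ∧ FunctionalEquation S N D N' D') →
        ∀ (g : ℕ → ℝ) (B : ℝ), (∀ p, 0 ≤ g p) →
        (fun X : ℕ => ∑ p ∈ (Finset.range X).filter (fun p => p.Prime ∧ p ∉ S),
          g p * Real.log p) =o[atTop] (fun X : ℕ => √(X : ℝ)) →
        (∀ p : ℕ, p.Prime → p ∉ S →
          ((∀ j, ∀ k ∈ ρ j, ‖value (α p) k‖ ≤ B) ∧
            ‖∑ j, (c j : ℂ) * ((ρ j).map (value (α p))).sum‖ ≤ g p) ∨
          ∀ j, ∀ k ∈ ρ j, ‖value (α p) k‖ ≤ g p) →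
        (∀ p : ℕ, p.Prime → p ∉ S → (α p).1 ^ m = 1 ∧ ∀ i, (α p).2 i ^ m = 1) ∧
        ((∀ x ∈ L, ∃ N D : ℂ → ℂ, Continuation S α x N D) →
          ∀ M : Multiset (Weight n), WeylInvariant M → ∃ N D : ℂ → ℂ, Continuation S α M N D) := by
  have hw : ∀ M : Multiset (Weight n), WeylInvariant M ↔ Pool.Agent.U857.GS.WInv M := fun M =>
    ⟨fun h => ⟨h.perm, h.refl⟩, fun h => ⟨h.perm, h.refl⟩⟩
  obtain ⟨L, m, hL, hm, hmain⟩ := Pool.Agent.U253.SPL.gsp_main n h hh R
    (fun M hM => hspan M ((hw M).2 hM)) ρ (fun j => (hw _).1 (hρ j)) hnt c hc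
  refine ⟨L, m, hL, hm, fun S α hα hnice g B hg hs hsm => ?_⟩
  obtain ⟨h1, h2⟩ := hmain S α hα.ne_zero hα.central
    (fun p hp hpS j => hα.unitary p hp hpS (ρ j) (hρ j))
    (fun j => by
      obtain ⟨N, D, N', D', ⟨a1, a2, a3, a4, a5⟩, ⟨b1, b2, b3, b4, b5⟩, κ, κ', hfe⟩ := hnice j
      exact ⟨N, D, N', D', κ, κ', ⟨a1, a2, a3, a4, a5⟩, ⟨b1, b2, b3, b4, b5⟩, hfe⟩) g B hg hs hsm
  refine ⟨h1, fun hcont M hM => ?_⟩
  obtain ⟨N, D, a1, a2, a3, a4, a5⟩ := h2 (fun x hx => by
    obtain ⟨N, D, a1, a2, a3, a4, a5⟩ := hcont x hx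
    exact ⟨N, D, a1, a2, a3, a4, a5⟩) M ((hw M).1 hM)
  exact ⟨N, D, a1, a2, a3, a4, a5⟩

end Pool.Agent.Results.MP_eea520_nt.OneSmallRelation
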