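import Pool.Agent.U156.OS.Mot
import Pool.Agent.U156.OS.FECplx

/-!
# Continuation with functional equation and one-sided bounds for derivatives at one point

`π` is an automorphic representation of `G = GSp_{2n}`, `ρ` a finite-dimensional representation of its L-group of degree `D`, `S` a
finite set of primes outside of which `π` is unramified, `R_p = ρ(A_p)` for `p ∉ S` (`A_p` the Satake class) and

  `L_S(s, π, ρ) = ∏_{p ∉ S} det (1 - p^{-s} R_p)⁻¹`.

The eigenvalues of all `R_p` are at most `p^B` in absolute value for some `B` (Langlands).  Let `γ` be the expected completing factor: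
conductor, Gamma factors, factors at the primes of `S`, and a constant of absolute value `1`, such that for unitary `π` the expected
functional equation of `Λ = γ L_S` is `Λ(1 - s) = conj Λ(conj s)`; the right side is the function of the contragredient.  The theorem is
about arbitrary matrices `R_p` with this bound and arbitrary `γ` meromorphic on `ℂ`, holomorphic without zeros for `Re s > B + 1`.

For real `u > (B + 1/2)²` the numbers `1/2 + √u` are on the half-line of absolute convergence.  Put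
`φ(u) = Re Λ(1/2 + √u)`, `ψ(u) = Im Λ(1/2 + √u) / √u`, and `b_n = φ^{(n)}(u₀) / n!`, `b'_n = ψ^{(n)}(u₀) / n!` for a fixed `u₀`.
The theorem: `Λ` extends to a meromorphic function on `ℂ` with the functional equation if and only if for each `ε > 0` certain nontrivial
finite combinations `∑_j p_j b_{n-j}` and `∑_j p'_j b'_{n-j}` are at least `- C ε^n`; and to an entire function if and only if
the `b_n` and the `b'_n` themselves are bounded from one side by `C ε^n`, for each `ε > 0`.  Nothing is assumed about the growth of the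
continuation or the number of poles.
-/

set_option autoImplicit false

open Filter Topology

namespace Pool.Agent.Results.MP_eea520_nt.PositivityOfDerivatives

open Classical in
/-- The partial Euler product `L_S(s) = ∏_{p ∉ S} det (1 - p^{-s} R_p)⁻¹`. -/
noncomputable def partialL {D : ℕ} (R : Nat.Primes → Matrix (Fin D) (Fin D) ℂ) (S : Finset Nat.Primes) (s : ℂ) : ℂ :=
  ∏' p : Nat.Primes, if p ∈ S then 1 else ((1 - ((p : ℕ) : ℂ) ^ (-s) • R p).det)⁻¹

/-- For each `ε > 0` there is a nonzero real polynomial `p` such that `∑_j p_j x_{n-j} ≥ - C ε^n` for all `n`. -/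
def SmallCombinations (x : ℕ → ℝ) : Prop :=
  ∀ ε : ℝ, 0 < ε → ∃ p : Polynomial ℝ, p ≠ 0 ∧ ∃ C : ℝ, ∀ n : ℕ,
    -(C * ε ^ n) ≤ ∑ q ∈ Finset.HasAntidiagonal.antidiagonal n, p.coeff q.1 * x q.2

/-- For each `ε > 0`, `x_n ≥ - C ε^n` for all `n`; or for each `ε > 0`, `x_n ≤ C ε^n` for all `n`. -/
def OneSided (x : ℕ → ℝ) : Prop :=
  (∀ ε : ℝ, 0 < ε → ∃ C : ℝ, ∀ n : ℕ, -(C * ε ^ n) ≤ x n) ∨ ∀ ε : ℝ, 0 < ε → ∃ C : ℝ, ∀ n : ℕ, x n ≤ C * ε ^ n

/-- The Taylor coefficients at `u₀` of `φ(u) = Re Λ(1/2 + √u)`. -/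
noncomputable def evenCoeff (Λ : ℂ → ℂ) (u₀ : ℝ) (n : ℕ) : ℝ :=
  iteratedDeriv n (fun u : ℝ => (Λ ((1 / 2 + Real.sqrt u : ℝ) : ℂ)).re) u₀ / n.factorial

/-- The Taylor coefficients at `u₀` of `ψ(u) = Im Λ(1/2 + √u) / √u`. -/
noncomputable def oddCoeff (Λ : ℂ → ℂ) (u₀ : ℝ) (n : ℕ) : ℝ :=
  iteratedDeriv n (fun u : ℝ => (Λ ((1 / 2 + Real.sqrt u : ℝ) : ℂ)).im / Real.sqrt u) u₀ / n.factorial

open Classical in
/-- **Continuation with functional equation.**  Let `R_p`, `p ∉ S`, be complex `D × D` matrices with eigenvalues of absolute value at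
most `p^B`, `B ≥ 0`, let `γ` be meromorphic on `ℂ` and holomorphic without zeros for `Re s > B + 1`, put `Λ = γ L_S`, and let
`u₀ > (B + 1/2)²`.

1. The Euler product converges for `Re s > B + 1` to a holomorphic function without zeros.
2. `Λ` extends from `Re s > B + 1` to a meromorphic function on `ℂ` with `Λ(1 - s) = conj Λ(conj s)` if and only if both
sequences of Taylor coefficients have small combinations.
3. `Λ` extends to an entire function with this functional equation if and only if both sequences are one-sided; in particular if all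
coefficients of the two sequences are nonnegative.
4. If the conditions in 2 hold, then `L_S` extends to a meromorphic function on `ℂ`. -/
theorem result {D : ℕ} (R : Nat.Primes → Matrix (Fin D) (Fin D) ℂ) (S : Finset Nat.Primes) (B : ℝ) (hB : 0 ≤ B)
    (hR : ∀ p : Nat.Primes, p ∉ S → ∀ μ : ℂ, (R p).charpoly.IsRoot μ → ‖μ‖ ≤ ((p : ℕ) : ℝ) ^ B)
    (γ : ℂ → ℂ) (hγ : MeromorphicOn γ Set.univ) (hγ' : ∀ s : ℂ, B + 1 < s.re → AnalyticAt ℂ γ s ∧ γ s ≠ 0)
    (u₀ : ℝ) (hu : (B + 1 / 2) ^ 2 < u₀) :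
    let Λ : ℂ → ℂ := fun s => γ s * partialL R S s
    (DifferentiableOn ℂ (partialL R S) {s : ℂ | B + 1 < s.re} ∧ ∀ s : ℂ, B + 1 < s.re →
      Multipliable (fun p : Nat.Primes => if p ∈ S then (1 : ℂ) else ((1 - ((p : ℕ) : ℂ) ^ (-s) • R p).det)⁻¹) ∧
      partialL R S s ≠ 0) ∧
    ((∃ G : ℂ → ℂ, MeromorphicOn G Set.univ ∧ (∀ s : ℂ, B + 1 < s.re → G s = Λ s) ∧
        ∀ s : ℂ, G (1 - s) = (starRingEnd ℂ) (G ((starRingEnd ℂ) s))) ↔
      SmallCombinations (evenCoeff Λ u₀) ∧ SmallCombinations (oddCoeff Λ u₀)) ∧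
    (((∃ G : ℂ → ℂ, Differentiable ℂ G ∧ (∀ s : ℂ, B + 1 < s.re → G s = Λ s) ∧
        ∀ s : ℂ, G (1 - s) = (starRingEnd ℂ) (G ((starRingEnd ℂ) s))) ↔
      OneSided (evenCoeff Λ u₀) ∧ OneSided (oddCoeff Λ u₀)) ∧
      ((∀ n : ℕ, 0 ≤ evenCoeff Λ u₀ n ∧ 0 ≤ oddCoeff Λ u₀ n) →
        ∃ G : ℂ → ℂ, Differentiable ℂ G ∧ (∀ s : ℂ, B + 1 < s.re → G s = Λ s) ∧
          ∀ s : ℂ, G (1 - s) = (starRingEnd ℂ) (G ((starRingEnd ℂ) s)))) ∧
    (SmallCombinations (evenCoeff Λ u₀) ∧ SmallCombinations (oddCoeff Λ u₀) →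
      ∃ g : ℂ → ℂ, MeromorphicOn g Set.univ ∧ ∀ s : ℂ, B + 1 < s.re → g s = partialL R S s) := by
  intro Λ
  obtain ⟨F, hFdef⟩ : ∃ F : Nat.Primes → Matrix (Fin D) (Fin D) ℂ, F = fun p => if p ∈ S then 0 else R p := ⟨_, rfl⟩
  have hF : ∀ (p : Nat.Primes) (μ : ℂ), (F p).charpoly.IsRoot μ → ‖μ‖ ≤ ((p : ℕ) : ℝ) ^ B := by
    intro p μ hμ
    rw [hFdef] at hμ
    by_cases hp : p ∈ S
    · simp only [if_pos hp] at hμ
      rw [Matrix.charpoly_zero, Polynomial.IsRoot.def, Polynomial.eval_pow, Polynomial.eval_X] at hμ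
      have h0 : μ = 0 := eq_zero_of_pow_eq_zero hμ
      rw [h0, norm_zero]
      positivity
    · simp only [if_neg hp] at hμ
      exact hR p hp μ hμ
  have hfac : ∀ (p : Nat.Primes) (s : ℂ), (if p ∈ S then (1 : ℂ) else ((1 - ((p : ℕ) : ℂ) ^ (-s) • R p).det)⁻¹) =
      ((1 - ((p : ℕ) : ℂ) ^ (-s) • F p).det)⁻¹ := by
    intro p s
    rw [hFdef]
    by_cases hp : p ∈ S
    · simp only [if_pos hp, smul_zero, sub_zero, Matrix.det_one, inv_one]
    · simp only [if_neg hp]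
  have hL : partialL R S = Pool.Agent.U156.OS.ML F := by
    funext s
    unfold partialL Pool.Agent.U156.OS.ML
    exact tprod_congr fun p => by rw [← hfac p s]
  obtain ⟨hd, hprod, -⟩ := Pool.Agent.U156.OS.ML_facts hF
  have hhalf : (1 / 2 : ℝ) + (B + 1 / 2) = B + 1 := by ring
  have hΛd : DifferentiableOn ℂ Λ (Pool.Agent.U156.OS.HP (1 / 2 + (B + 1 / 2))) := by
    rw [hhalf]
    intro s hs
    have h1 : DifferentiableAt ℂ (partialL R S) s := by
      rw [hL]
      exact hd.differentiableAt ((Pool.Agent.U156.OS.HP_open _).mem_nhds hs)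
    exact (((hγ' s hs).1.differentiableAt).mul h1).differentiableWithinAt
  have hh : (0 : ℝ) ≤ B + 1 / 2 := by linarith
  obtain ⟨h1, h2⟩ := Pool.Agent.U156.OS.fe_core (m := 1 / 2) hh hΛd hu
  have hb : evenCoeff Λ u₀ = Pool.Agent.U156.OS.BB (Pool.Agent.U156.OS.fR Λ) (1 / 2) 0 u₀ := by
    funext n
    rw [Pool.Agent.U156.OS.BB_fR hh hΛd hu]
    rfl
  have hb' : oddCoeff Λ u₀ = Pool.Agent.U156.OS.BB (Pool.Agent.U156.OS.fI Λ) (1 / 2) 1 u₀ := by
    funext n
    rw [Pool.Agent.U156.OS.BB_fI hh hΛd hu]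
    rfl
  have hC : (∃ G : ℂ → ℂ, MeromorphicOn G Set.univ ∧ (∀ s : ℂ, B + 1 < s.re → G s = Λ s) ∧
        ∀ s : ℂ, G (1 - s) = (starRingEnd ℂ) (G ((starRingEnd ℂ) s))) ↔
      Pool.Agent.U156.OS.CMEnt Λ (1 / 2) (B + 1 / 2) := by
    unfold Pool.Agent.U156.OS.CMEnt
    rw [hhalf]
    have : ∀ s : ℂ, 2 * (((1 / 2 : ℝ)) : ℂ) - s = 1 - s := by
      intro s
      push_cast
      ring
    simp only [this]
  have hE : (∃ G : ℂ → ℂ, Differentiable ℂ G ∧ (∀ s : ℂ, B + 1 < s.re → G s = Λ s) ∧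
        ∀ s : ℂ, G (1 - s) = (starRingEnd ℂ) (G ((starRingEnd ℂ) s))) ↔
      Pool.Agent.U156.OS.CEnt Λ (1 / 2) (B + 1 / 2) := by
    unfold Pool.Agent.U156.OS.CEnt
    rw [hhalf]
    have : ∀ s : ℂ, 2 * (((1 / 2 : ℝ)) : ℂ) - s = 1 - s := by
      intro s
      push_cast
      ring
    simp only [this]
  have hmer : (∃ G : ℂ → ℂ, MeromorphicOn G Set.univ ∧ (∀ s : ℂ, B + 1 < s.re → G s = Λ s) ∧
        ∀ s : ℂ, G (1 - s) = (starRingEnd ℂ) (G ((starRingEnd ℂ) s))) ↔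
      SmallCombinations (evenCoeff Λ u₀) ∧ SmallCombinations (oddCoeff Λ u₀) := by
    rw [hC, hb, hb']
    exact h2
  have hent : (∃ G : ℂ → ℂ, Differentiable ℂ G ∧ (∀ s : ℂ, B + 1 < s.re → G s = Λ s) ∧
        ∀ s : ℂ, G (1 - s) = (starRingEnd ℂ) (G ((starRingEnd ℂ) s))) ↔
      OneSided (evenCoeff Λ u₀) ∧ OneSided (oddCoeff Λ u₀) := by
    rw [hE, hb, hb']
    exact h1
  refine ⟨⟨?_, fun s hs => ⟨?_, ?_⟩⟩, hmer, ⟨hent, fun hpos => ?_⟩, fun hcond => ?_⟩
  · rw [hL]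
    exact hd
  · simp only [hfac]
    exact (hprod s hs).1.multipliable
  · rw [hL]
    exact (hprod s hs).2
  · refine hent.2 ⟨Or.inl fun ε hε => ⟨0, fun n => ?_⟩, Or.inl fun ε hε => ⟨0, fun n => ?_⟩⟩
    · rw [zero_mul, neg_zero]
      exact (hpos n).1
    · rw [zero_mul, neg_zero]
      exact (hpos n).2
  · obtain ⟨G, hG1, hG2, -⟩ := hmer.2 hcond
    refine ⟨fun s => G s / γ s, fun s hs => (hG1 s hs).div (hγ s hs), fun s hs => ?_⟩
    simp only
    rw [hG2 s hs]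
    show γ s * partialL R S s / γ s = _
    rw [mul_div_cancel_left₀ _ (hγ' s hs).2]

end Pool.Agent.Results.MP_eea520_nt.PositivityOfDerivatives
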